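import Pool.Agent.V5helper51.ML.Stm
import Pool.Agent.V5helper70.MT.AE

/-! Project ML, job AEL (adapted from `V5helper70.MT.AE`). -/

set_option autoImplicit false

namespace Pool.Agent.V5helper32.ML

open Finset MeasureTheory Filter
open Pool.Agent.V5helper51.MT (a cube blk)
open Pool.Agent.V5helper70.MT (meas_a meas_cube cube_fin)
open Pool.Agent.V5helper51.ML
open scoped ENNReal

lemma meas_El (k l q : ℕ) (x y : Fin l → ℕ) :
    MeasurableSet {α : Fin (k - 1) → ℝ | ∑ i, a k q α (x i) = ∑ i, a k q α (y i)} := by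
  apply measurableSet_eq_fun
  · exact Finset.measurable_sum _ fun i _ => meas_a k q (x i)
  · exact Finset.measurable_sum _ fun i _ => meas_a k q (y i)

/-- the pairs of different tuples -/
def Pr (l m : ℕ) : Finset ((Fin l → ℕ) × (Fin l → ℕ)) :=
  (boxl l (2 ^ m) ×ˢ boxl l (2 ^ m)).filter fun p => p.1 ≠ p.2

/-- the number of pairs -/
noncomputable def NL (k l q m : ℕ) (α : Fin (k - 1) → ℝ) : ℕ :=
  ((boxl l (2 ^ m) ×ˢ boxl l (2 ^ m)).filter fun p : (Fin l → ℕ) × (Fin l → ℕ) =>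
    p.1 ≠ p.2 ∧ ∑ i, a k q α (p.1 i) = ∑ i, a k q α (p.2 i)).card

lemma NL_eq (k l q m : ℕ) (α : Fin (k - 1) → ℝ) : ((NL k l q m α : ℕ) : ℝ≥0∞) =
    ∑ p ∈ Pr l m,
      {β : Fin (k - 1) → ℝ | ∑ i, a k q β (p.1 i) = ∑ i, a k q β (p.2 i)}.indicator (fun _ => (1 : ℝ≥0∞)) α := by
  unfold NL Pr
  rw [← filter_filter, card_filter]
  push_cast
  apply sum_congr rfl
  intro p _
  by_cases h : ∑ i, a k q α (p.1 i) = ∑ i, a k q α (p.2 i)
  · rw [if_pos h]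
    exact (Set.indicator_of_mem (show α ∈ {β : Fin (k - 1) → ℝ | ∑ i, a k q β (p.1 i) =
      ∑ i, a k q β (p.2 i)} from h) (fun _ => (1 : ℝ≥0∞))).symm
  · rw [if_neg h]
    exact (Set.indicator_of_notMem (show α ∉ {β : Fin (k - 1) → ℝ | ∑ i, a k q β (p.1 i) =
      ∑ i, a k q β (p.2 i)} from h) (fun _ => (1 : ℝ≥0∞))).symm

lemma sum_Pr (l m : ℕ) (F : (Fin l → ℕ) → (Fin l → ℕ) → ℝ) :
    ∑ p ∈ Pr l m, F p.1 p.2 = ∑ x ∈ boxl l (2 ^ m), ∑ y ∈ (boxl l (2 ^ m)).erase x, F x y := by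
  unfold Pr
  rw [sum_filter, sum_product]
  apply sum_congr rfl
  intro x _
  rw [← sum_filter, filter_ne]

lemma bad (hMV : S_MVL) (k l q A : ℕ) (hl : 1 ≤ l) (hlk : l < k) (hq : 1 ≤ q) (hA : 1 ≤ A) :
    ∃ C : ℝ, 0 < C ∧ ∀ m : ℕ, 1 ≤ m →
    (volume.restrict (cube k A)) {α : Fin (k - 1) → ℝ |
      ((2 : ℝ) ^ m) ^ (l - 1) * (m : ℝ) ^ 3 < (NL k l q m α : ℝ)} ≤
      ENNReal.ofReal (C / (m : ℝ) ^ 2) := by
  obtain ⟨C, hC, h⟩ := hMV k l q A hl hlk hq hA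
  refine ⟨C, hC, fun m hm => ?_⟩
  have hm0 : (0 : ℝ) < m := by exact_mod_cast hm
  have hP : 2 ≤ 2 ^ m := by
    calc 2 = 2 ^ 1 := by norm_num
      _ ≤ 2 ^ m := Nat.pow_le_pow_right (by norm_num) hm
  have h1 := h (2 ^ m) hP
  push_cast at h1
  have hmeas : AEMeasurable (fun α : Fin (k - 1) → ℝ => ((NL k l q m α : ℕ) : ℝ≥0∞)) (volume.restrict (cube k A)) := by
    apply Measurable.aemeasurable
    simp only [NL_eq]
    apply Finset.measurable_sum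
    intro p _
    exact measurable_const.indicator (meas_El k l q p.1 p.2)
  have hint : ∫⁻ α, ((NL k l q m α : ℕ) : ℝ≥0∞) ∂(volume.restrict (cube k A)) ≤
      ENNReal.ofReal (C * ((2 : ℝ) ^ m) ^ l / ((2 : ℝ) ^ m) ^ (k - l) * Real.log (2 ^ m)) := by
    simp only [NL_eq]
    rw [lintegral_finsetSum _ (fun p _ => measurable_const.indicator (meas_El k l q p.1 p.2))]
    have e1 : ∀ p : (Fin l → ℕ) × (Fin l → ℕ), ∫⁻ α, {β : Fin (k - 1) → ℝ | ∑ i, a k q β (p.1 i) =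
        ∑ i, a k q β (p.2 i)}.indicator (fun _ => (1 : ℝ≥0∞)) α ∂(volume.restrict (cube k A)) =
        ENNReal.ofReal (volume.real {α : Fin (k - 1) → ℝ | α ∈ cube k A ∧
          ∑ i, a k q α (p.1 i) = ∑ i, a k q α (p.2 i)}) := by
      intro p
      rw [lintegral_indicator (meas_El k l q p.1 p.2), setLIntegral_one, Measure.restrict_apply (meas_El k l q p.1 p.2)]
      have e2 : {β : Fin (k - 1) → ℝ | ∑ i, a k q β (p.1 i) = ∑ i, a k q β (p.2 i)} ∩ cube k A =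
          {α : Fin (k - 1) → ℝ | α ∈ cube k A ∧ ∑ i, a k q α (p.1 i) = ∑ i, a k q α (p.2 i)} := by
        ext α
        exact and_comm
      rw [e2, ofReal_measureReal (ne_top_of_le_ne_top (cube_fin k A) (measure_mono fun α hα => hα.1))]
    simp only [e1]
    rw [← ENNReal.ofReal_sum_of_nonneg (fun p _ => measureReal_nonneg)]
    apply ENNReal.ofReal_le_ofReal
    rw [sum_Pr l m (fun x y => volume.real {α : Fin (k - 1) → ℝ | α ∈ cube k A ∧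
          ∑ i, a k q α (x i) = ∑ i, a k q α (y i)})]
    exact h1
  have hmk := mul_meas_ge_le_lintegral₀ hmeas (ENNReal.ofReal (((2 : ℝ) ^ m) ^ (l - 1) * (m : ℝ) ^ 3))
  have hB0 : 0 < ((2 : ℝ) ^ m) ^ (l - 1) * (m : ℝ) ^ 3 := by positivity
  have hsub : {α : Fin (k - 1) → ℝ | ((2 : ℝ) ^ m) ^ (l - 1) * (m : ℝ) ^ 3 < (NL k l q m α : ℝ)} ⊆
      {α | ENNReal.ofReal (((2 : ℝ) ^ m) ^ (l - 1) * (m : ℝ) ^ 3) ≤ ((NL k l q m α : ℕ) : ℝ≥0∞)} := by
    intro α hα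
    have h2 : ((2 : ℝ) ^ m) ^ (l - 1) * (m : ℝ) ^ 3 < (NL k l q m α : ℝ) := hα
    show ENNReal.ofReal (((2 : ℝ) ^ m) ^ (l - 1) * (m : ℝ) ^ 3) ≤ ((NL k l q m α : ℕ) : ℝ≥0∞)
    rw [← ENNReal.ofReal_natCast]
    exact ENNReal.ofReal_le_ofReal h2.le
  refine (measure_mono hsub).trans ?_
  have h3 := hmk.trans hint
  rw [mul_comm, ← ENNReal.le_div_iff_mul_le (Or.inl (by simpa using hB0)) (Or.inl ENNReal.ofReal_ne_top),
    ← ENNReal.ofReal_div_of_pos hB0] at h3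
  refine h3.trans (ENNReal.ofReal_le_ofReal ?_)
  rw [div_le_div_iff₀ hB0 (by positivity), Real.log_pow]
  have hl2 : Real.log 2 ≤ 1 := by
    have := Real.log_two_lt_d9
    linarith
  have h4 : (m : ℝ) * Real.log 2 ≤ m := by nlinarith
  have h4' : 0 ≤ (m : ℝ) * Real.log 2 := mul_nonneg hm0.le (Real.log_nonneg (by norm_num))
  have hQ : (1 : ℝ) ≤ (2 : ℝ) ^ m := one_le_pow₀ (by norm_num)
  have h5 : ((2 : ℝ) ^ m) ^ l / ((2 : ℝ) ^ m) ^ (k - l) ≤ ((2 : ℝ) ^ m) ^ (l - 1) := by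
    rw [div_le_iff₀ (by positivity), ← pow_add]
    exact pow_le_pow_right₀ hQ (by omega)
  calc C * ((2 : ℝ) ^ m) ^ l / ((2 : ℝ) ^ m) ^ (k - l) * ((m : ℝ) * Real.log 2) * (m : ℝ) ^ 2
      = C * (((2 : ℝ) ^ m) ^ l / ((2 : ℝ) ^ m) ^ (k - l)) * ((m : ℝ) * Real.log 2) * (m : ℝ) ^ 2 := by ring
    _ ≤ C * ((2 : ℝ) ^ m) ^ (l - 1) * (m : ℝ) * (m : ℝ) ^ 2 := by
        apply mul_le_mul_of_nonneg_right _ (by positivity)
        exact mul_le_mul (mul_le_mul_of_nonneg_left h5 hC.le) h4 h4' (by positivity)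
    _ = C * (((2 : ℝ) ^ m) ^ (l - 1) * (m : ℝ) ^ 3) := by ring

lemma one (hMV : S_MVL) (k l q A : ℕ) (hl : 1 ≤ l) (hlk : l < k) (hq : 1 ≤ q) (hA : 1 ≤ A) :
    ∀ᵐ α : Fin (k - 1) → ℝ ∂(volume.restrict (cube k A)), ∃ m₀ : ℕ, ∀ m ≥ m₀,
      (NL k l q m α : ℝ) ≤ ((2 : ℝ) ^ m) ^ (l - 1) * (m : ℝ) ^ 3 := by
  obtain ⟨C, hC, h⟩ := bad hMV k l q A hl hlk hq hA
  have hs : Summable fun m : ℕ => C / (m : ℝ) ^ 2 := by
    simp only [div_eq_mul_one_div C]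
    exact (Real.summable_one_div_nat_pow.2 (by norm_num)).mul_left C
  have h1 : ∑' m : ℕ, (volume.restrict (cube k A)) {α : Fin (k - 1) → ℝ | 1 ≤ m ∧
      ((2 : ℝ) ^ m) ^ (l - 1) * (m : ℝ) ^ 3 < (NL k l q m α : ℝ)} ≠ ⊤ := by
    refine ne_top_of_le_ne_top hs.tsum_ofReal_ne_top (ENNReal.tsum_le_tsum fun m => ?_)
    by_cases hm : 1 ≤ m
    · simp only [hm, true_and]
      exact h m hm
    · simp [hm]
  filter_upwards [ae_eventually_notMem h1] with α hα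
  obtain ⟨m₀, hm₀⟩ := eventually_atTop.1 hα
  refine ⟨max m₀ 1, fun m hm => ?_⟩
  have h2 := hm₀ m ((le_max_left _ _).trans hm)
  by_contra hcon
  push Not at hcon
  exact h2 ⟨(le_max_right _ _).trans hm, hcon⟩

theorem t_AEL (hMV : S_MVL) : S_AEL := by
  intro k l hl hlk
  have h : ∀ᵐ α : Fin (k - 1) → ℝ, ∀ q A : ℕ, 1 ≤ q → 1 ≤ A → α ∈ cube k A → ∃ m₀ : ℕ, ∀ m ≥ m₀,
      (NL k l q m α : ℝ) ≤ ((2 : ℝ) ^ m) ^ (l - 1) * (m : ℝ) ^ 3 := by
    rw [ae_all_iff]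
    intro q
    rw [ae_all_iff]
    intro A
    by_cases hq : 1 ≤ q
    · by_cases hA : 1 ≤ A
      · have h1 := (ae_restrict_iff' (meas_cube k A)).1 (one hMV k l q A hl hlk hq hA)
        filter_upwards [h1] with α hα _ _ hc
        exact hα hc
      · filter_upwards with α _ hA'
        exact absurd hA' hA
    · filter_upwards with α hq'
      exact absurd hq' hq
  filter_upwards [h] with α hα q hq
  obtain ⟨A, hA⟩ := exists_nat_ge (∑ j, |α j|)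
  have hmem : α ∈ cube k (A + 1) := by
    intro j
    have h1 : |α j| ≤ ∑ j, |α j| := single_le_sum (f := fun j => |α j|) (fun i _ => abs_nonneg _) (mem_univ j)
    push_cast
    linarith
  exact hα q (A + 1) hq (by omega) hmem

end Pool.Agent.V5helper32.ML
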